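import Pool.Agent.H282R2.Lock44

set_option autoImplicit false
set_option maxHeartbeats 1000000

namespace Pool.Agent.Results.MP_5fbfa0_co.LimitRatioOne

open Set Filter Topology

/-- Euclidean three-space. -/
abbrev Space := EuclideanSpace ℝ (Fin 3)

/-- The points `q 0, …, q n` form a configuration in space of the open chain with `n` links and
link lengths `ℓ i` (for the link joining vertex `i` to vertex `i + 1`): the lengths are as
prescribed and the polygonal path is simple, which means that consecutive links meet only in their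
common vertex and all other pairs of links are disjoint. -/
structure IsConfiguration {n : ℕ} (ℓ : Fin n → ℝ) (q : Fin (n + 1) → Space) : Prop where
  length : ∀ i : Fin n, dist (q i.castSucc) (q i.succ) = ℓ i
  consecutive : ∀ i j : Fin n, (i : ℕ) + 1 = j →
    segment ℝ (q i.castSucc) (q i.succ) ∩ segment ℝ (q j.castSucc) (q j.succ) = {q j.castSucc}
  distant : ∀ i j : Fin n, (i : ℕ) + 1 < j →
    Disjoint (segment ℝ (q i.castSucc) (q i.succ)) (segment ℝ (q j.castSucc) (q j.succ))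

/-- The vertices lie in order on one line: every link points in the same direction `u`. -/
def IsStraight {n : ℕ} (q : Fin (n + 1) → Space) : Prop :=
  ∃ u : Space, ∀ i : Fin n, ∃ c : ℝ, 0 < c ∧ q i.succ = q i.castSucc + c • u

/-- `q` can be moved to `q'`: there is a continuous path of configurations from `q` to `q'`. -/
def CanMove {n : ℕ} (ℓ : Fin n → ℝ) (q q' : Fin (n + 1) → Space) : Prop :=
  ∃ Q : ℝ → Fin (n + 1) → Space, ContinuousOn Q (Icc 0 1) ∧
    (∀ t ∈ Icc (0 : ℝ) 1, IsConfiguration ℓ (Q t)) ∧ Q 0 = q ∧ Q 1 = q'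

/-- The chain has a locked configuration: one that cannot be moved to a straight configuration. -/
def HasLocked {n : ℕ} (ℓ : Fin n → ℝ) : Prop :=
  ∃ q : Fin (n + 1) → Space, IsConfiguration ℓ q ∧ ¬ ∃ q', CanMove ℓ q q' ∧ IsStraight q'

/-- The largest link length divided by the smallest link length is `r`. -/
def HasLengthRatio {n : ℕ} (ℓ : Fin n → ℝ) (r : ℝ) : Prop :=
  ∃ i j : Fin n, (∀ k, ℓ k ≤ ℓ i) ∧ (∀ k, ℓ j ≤ ℓ k) ∧ ℓ i / ℓ j = r

/-- The set of all length ratios of chains that have a locked configuration. -/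
def lockedRatios : Set ℝ :=
  {r | ∃ (n : ℕ) (ℓ : Fin n → ℝ), (∀ i, 0 < ℓ i) ∧ HasLengthRatio ℓ r ∧ HasLocked ℓ}

theorem straight_aux {n : ℕ} {q : Fin (n + 1) → Space} (h : IsStraight q) :
    ∃ u : Space, ∀ v, ∃ c : ℝ, q v = q 0 + c • u := by
  obtain ⟨u, hu⟩ := h
  refine ⟨u, fun v => ?_⟩
  induction v using Fin.induction with
  | zero => exact ⟨0, by simp⟩
  | succ i ih =>
    obtain ⟨c, hc⟩ := ih
    obtain ⟨d, _, hd⟩ := hu i
    exact ⟨c + d, by rw [hd, hc]; module⟩

theorem key (δ : ℝ) (hδ : 0 < δ) :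
    ∃ ℓ : Fin 44 → ℝ, (∀ i, 0 < ℓ i) ∧ (∃ r < 1 + δ, HasLengthRatio ℓ r) ∧ HasLocked ℓ := by
  have hs2 : 0 < Real.sqrt 2 := Real.sqrt_pos.2 (by norm_num)
  have ha : 0 < δ / (2 + δ) := by positivity
  have hev : ∀ᶠ η in 𝓝[>] (0 : ℝ), ∀ i : Fin 44,
      ‖H282R2.D44.C.arr.pos η (Fin.succ i) - H282R2.D44.C.arr.pos η (Fin.castSucc i)‖ ∈
        Ioo (Real.sqrt 2 * (1 - δ / (2 + δ))) (Real.sqrt 2 * (1 + δ / (2 + δ))) := by
    refine eventually_all.2 fun i => ?_
    refine (H282R2.D44.tendsto_len i).eventually (Ioo_mem_nhds ?_ ?_)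
    · nlinarith
    · nlinarith
  obtain ⟨η, ⟨⟨htrap, hfar, hnear⟩, hlen⟩⟩ :=
    ((H282R2.D44.ev_trap.and H282R2.D44.ev_simple).and hev).exists
  set q : Fin (44 + 1) → Space := H282R2.D44.C.arr.pos η with hq
  have ha1 : δ / (2 + δ) < 1 := by rw [div_lt_one (by positivity)]; linarith
  have hpos : ∀ i : Fin 44, 0 < dist (q i.castSucc) (q i.succ) := by
    intro i
    rw [dist_comm, dist_eq_norm]
    refine lt_of_le_of_lt ?_ (hlen i).1
    have : 0 ≤ 1 - δ / (2 + δ) := by linarith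
    positivity
  refine ⟨fun i => dist (q i.castSucc) (q i.succ), hpos, ?_, ?_⟩
  · obtain ⟨i, hi⟩ := Finite.exists_max fun i : Fin 44 => dist (q i.castSucc) (q i.succ)
    obtain ⟨j, hj⟩ := Finite.exists_min fun i : Fin 44 => dist (q i.castSucc) (q i.succ)
    refine ⟨_, ?_, i, j, hi, hj, rfl⟩
    rw [div_lt_iff₀ (hpos j)]
    have h1 := (hlen i).2
    have h2 := (hlen j).1
    rw [← dist_eq_norm, dist_comm] at h1 h2
    have h3 : Real.sqrt 2 * (1 + δ / (2 + δ)) = (1 + δ) * (Real.sqrt 2 * (1 - δ / (2 + δ))) := by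
      field_simp; ring
    calc dist (q i.castSucc) (q i.succ) < Real.sqrt 2 * (1 + δ / (2 + δ)) := h1
      _ = (1 + δ) * (Real.sqrt 2 * (1 - δ / (2 + δ))) := h3
      _ < (1 + δ) * dist (q j.castSucc) (q j.succ) := by
        apply mul_lt_mul_of_pos_left h2; linarith
  · refine ⟨q, ⟨fun i => rfl, fun i j hij => hnear i j hij, fun i j hij => hfar i j hij⟩, ?_⟩
    rintro ⟨q', ⟨Q, hQc, hQ, hQ0, hQ1⟩, hst⟩
    have h1 := htrap (fun t => Q t) (continuousOn_iff_continuous_domRestrict.1 hQc)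
      (by simpa using hQ0)
      (fun t l => by
        have := (hQ t t.2).length l
        rw [dist_comm, dist_eq_norm, dist_comm, dist_eq_norm] at this
        exact this)
      (fun t i j hij => (hQ t t.2).distant i j hij) 1
    apply h1
    obtain ⟨u, hu⟩ := straight_aux hst
    have e : Q ((1 : unitInterval) : ℝ) = q' := by rw [← hQ1]; rfl
    simp only [e]
    obtain ⟨a, ha'⟩ := hu (H282R2.D44.C.vx 9)
    obtain ⟨b, hb⟩ := hu (H282R2.D44.C.vx 1)
    obtain ⟨c, hc⟩ := hu (H282R2.D44.C.vx 0)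
    have e1 : q' (H282R2.D44.C.vx 9) - q' (H282R2.D44.C.vx 1) = (a - b) • u := by
      rw [ha', hb]; module
    have e2 : q' (H282R2.D44.C.vx 0) - q' (H282R2.D44.C.vx 1) = (c - b) • u := by
      rw [hc, hb]; module
    rw [e1, e2, H282R2.cr_smul_1, H282R2.cr_smul_2, H282R2.cr_self, smul_zero, smul_zero]

/-- The infimum `L` of the length ratios of open chains in space that have a locked configuration
is `1`. Moreover chains with `44` links suffice: for every `δ > 0` there is a chain with `44` links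
and length ratio less than `1 + δ` that has a locked configuration. -/
theorem result : sInf lockedRatios = 1 ∧
    ∀ δ : ℝ, 0 < δ → ∃ ℓ : Fin 44 → ℝ, (∀ i, 0 < ℓ i) ∧
      (∃ r < 1 + δ, HasLengthRatio ℓ r) ∧ HasLocked ℓ := by
  refine ⟨le_antisymm ?_ ?_, key⟩
  · refine le_of_forall_pos_le_add fun δ hδ => ?_
    obtain ⟨ℓ, h0, ⟨r, hr, hr'⟩, hl⟩ := key δ hδ
    have hm : r ∈ lockedRatios := ⟨44, ℓ, h0, hr', hl⟩
    refine (csInf_le ?_ hm).trans hr.le
    refine ⟨0, ?_⟩
    rintro s ⟨n, ℓ', h1, ⟨i, j, _, _, rfl⟩, _⟩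
    exact div_nonneg (h1 i).le (h1 j).le
  · obtain ⟨ℓ, h0, ⟨r, hr, hr'⟩, hl⟩ := key 1 one_pos
    have hm : r ∈ lockedRatios := ⟨44, ℓ, h0, hr', hl⟩
    refine le_csInf ⟨r, hm⟩ ?_
    rintro s ⟨n, ℓ', h1, ⟨i, j, h2, _, rfl⟩, _⟩
    rw [one_le_div (h1 j)]
    exact h2 j

end Pool.Agent.Results.MP_5fbfa0_co.LimitRatioOne
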